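import Pool.Agent.Helper58.R3.Stmts

/-!
One element of the orbit in the boundary (module CB, MP_7ef5a1_co).
-/

set_option autoImplicit false
open Classical

namespace Pool.Agent.Helper58.R3

theorem cb_four {m : ℕ} (D : Finset (Fin m)) (hD : D.card = 3) (a b q q' : Fin m) (ha : a ∈ D)
    (hb : b ∈ D) (hq : q ∈ D) (hq' : q' ∈ D) (hab : a ≠ b) (haq : a ≠ q) (haq' : a ≠ q')
    (hbq : b ≠ q) (hbq' : b ≠ q') : q = q' := by
  by_contra hne
  have h1 : ({a, b, q, q'} : Finset (Fin m)) ⊆ D := by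
    intro x hx
    simp only [Finset.mem_insert, Finset.mem_singleton] at hx
    rcases hx with rfl | rfl | rfl | rfl
    · exact ha
    · exact hb
    · exact hq
    · exact hq'
  have h2 : ({a, b, q, q'} : Finset (Fin m)).card = 4 := by
    rw [Finset.card_insert_of_notMem, Finset.card_insert_of_notMem, Finset.card_pair hne]
    · simp only [Finset.mem_insert, Finset.mem_singleton, not_or]
      exact ⟨hbq, hbq'⟩
    · simp only [Finset.mem_insert, Finset.mem_singleton, not_or]
      exact ⟨hab, haq, haq'⟩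
  have h3 := Finset.card_le_card h1
  omega

theorem st_CB (h1 : ST_LYF) (h2 : ST_R1) (h3 : ST_R2) : ST_CB := by
  intro m H v0 Z ψ k c d hS hc1 hck hvc huniq hdD hdP hdv
  obtain ⟨L1, L2, L3, -, L5, L6, -, L8, -, L10, L11⟩ := h1 m H v0 Z ψ k hS
  have R1a := (h2 m H v0 Z ψ k hS).1
  have R2 := h3 m H v0 Z ψ k hS
  have hlay : Lay Z ψ c (ψ^[k - c] v0) := by
    have h := L6 (k - c) (by omega)
    rwa [show k - (k - c) = c by omega] at h
  have hmod : c % (k + 1) = c := Nat.mod_eq_of_lt (by omega)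
  have hk : k + 1 = 2 * c := by
    obtain ⟨-, -, h4⟩ := R2 _ hvc c hlay (by omega)
    rw [hmod] at h4
    have h5 := huniq (c - 1) (by omega) h4
    omega
  have hdiv : ∀ q ∈ nb H Z, ∀ t, Lay Z ψ t q → c ∣ t := by
    intro q hq t ht
    by_cases hr : t % (k + 1) = 0
    · exact dvd_trans ⟨2, by omega⟩ (Nat.dvd_of_mod_eq_zero hr)
    · obtain ⟨-, h6, -⟩ := R2 q hq t ht hr
      have h7 := huniq (k - t % (k + 1)) (by omega) h6
      have h8 : t % (k + 1) < k + 1 := Nat.mod_lt _ (by omega)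
      have h9 : t % (k + 1) = c := by omega
      have h10 := Nat.div_add_mod t (k + 1)
      rw [h9, hk] at h10
      rw [← h10]
      exact dvd_add (Dvd.intro _ (by ring : c * (2 * (t / (2 * c))) = 2 * c * (t / (2 * c))))
        dvd_rfl
  obtain ⟨F, hF⟩ : ∃ F : Finset (Fin m), F = Finset.univ.filter
    (fun x => ∃ i, Lay Z ψ i x ∧ c ∣ i) := ⟨_, rfl⟩
  have hmF : ∀ x, x ∈ F ↔ ∃ i, Lay Z ψ i x ∧ c ∣ i := by
    intro x
    rw [hF]
    simp
  have hFne : F.Nonempty := by
    refine ⟨ψ^[k] v0, (hmF _).2 ⟨0, ⟨hS.kl.1, ?_⟩, dvd_zero c⟩⟩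
    intro j hj
    exact absurd hj (Nat.not_lt_zero j)
  have hPF : ∀ y ∈ nb H F, Per Z ψ y ∧
      ∃ i, c ∣ i ∧ ψ^[i] y ∈ nb H Z ∧ Per Z ψ (ψ^[i] y) := by
    intro y hy
    unfold nb at hy
    rw [Finset.mem_filter] at hy
    obtain ⟨-, hyF, x, hxF, hxy⟩ := hy
    obtain ⟨i, hi, hci⟩ := (hmF x).1 hxF
    have hPy : Per Z ψ y := by
      rcases L1 y with ⟨j, hj⟩ | hp
      · exfalso
        apply hyF
        refine (hmF y).2 ⟨j, hj, ?_⟩
        rcases lt_trichotomy i j with hij | hij | hij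
        · obtain ⟨h4, h5⟩ := L10 x y i j hi hj hij hxy
          have h6 := hdiv _ h4 _ h5
          have h7 := dvd_add hci h6
          rwa [show i + (j - i) = j by omega] at h7
        · rw [← hij]
          exact hci
        · obtain ⟨h4, h5⟩ := L10 y x j i hj hi hij hxy.symm
          have h6 := hdiv _ h4 _ h5
          have h7 := (Nat.dvd_sub hci h6)
          rwa [show i - (i - j) = j by omega] at h7
      · exact hp
    exact ⟨hPy, i, hci, L11 x y i hi hPy hxy⟩
  have hvP : ¬ Per Z ψ (ψ^[k - c] v0) := L3 _ _ hlay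
  have huq : ∀ q q', q ∈ nb H Z → q' ∈ nb H Z → Per Z ψ q → Per Z ψ q' → q = q' := by
    intro q q' hq hq' hp hp'
    refine cb_four (nb H Z) hS.D3 (ψ^[k - c] v0) d q q' hvc hdD hq hq' ?_ ?_ ?_ ?_ ?_
    · exact fun h => hdv (k - c) (by omega) h.symm
    · rintro rfl
      exact hvP hp
    · rintro rfl
      exact hvP hp'
    · rintro rfl
      exact hdP hp
    · rintro rfl
      exact hdP hp'
  have hcard : (nb H F).card ≤ 2 := by
    by_cases hE : nb H F = ∅
    · rw [hE]
      simp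
    · obtain ⟨y0, hy0⟩ := Finset.nonempty_iff_ne_empty.2 hE
      obtain ⟨-, i0, -, hq, hqP⟩ := hPF y0 hy0
      obtain ⟨q, hqe⟩ : ∃ q, q = ψ^[i0] y0 := ⟨_, rfl⟩
      rw [← hqe] at hq hqP
      have hq2 : ψ^[2 * c] q = q := by
        rw [← hk]
        exact huq _ _ (R1a q hq hqP).2 hq (L5 q (k + 1) hqP) hqP
      have hq3 : ∀ f, ψ^[2 * c * f] q = q := by
        intro f
        rw [Function.iterate_mul]
        exact Function.iterate_fixed hq2 f
      have hsub : nb H F ⊆ {q, ψ^[c] q} := by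
        intro y hy
        obtain ⟨hPy, i, ⟨e, he⟩, hyD, hyP⟩ := hPF y hy
        have hyq : ψ^[i] y = q := huq _ _ hyD hq hyP hqP
        rw [Finset.mem_insert, Finset.mem_singleton]
        rcases Nat.even_or_odd' e with ⟨f, hf | hf⟩
        · left
          have h4 : i = 2 * c * f := by rw [he, hf]; ring
          refine L8 y q i (fun t _ => hPy t) (fun t _ => hqP t) ?_
          rw [hyq, h4, hq3]
        · right
          have h4 : i + c = 2 * c * (f + 1) := by rw [he, hf]; ring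
          refine L8 y (ψ^[c] q) i (fun t _ => hPy t) (fun t _ => L5 q c hqP t) ?_
          rw [hyq, ← Function.iterate_add_apply, h4, hq3]
      exact (Finset.card_le_card hsub).trans Finset.card_le_two
  rcases hS.k3 F hFne hcard v0 with hv | hv
  · obtain ⟨i, hi, hci⟩ := (hmF v0).1 hv
    have h4 := L2 v0 i k hi hS.kl
    rw [h4] at hci
    have h5 : c ∣ 1 := by
      have h6 : c ∣ k + 1 := ⟨2, by omega⟩
      exact (Nat.dvd_add_right hci).1 h6
    have h6 := Nat.dvd_one.1 h5
    omega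
  · exact absurd (hPF v0 hv).1 (L3 v0 k hS.kl)

end Pool.Agent.Helper58.R3
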